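import Pool.Agent.MP_86c931_ag.H56.RowsA

/-! Poincaré lemmas through Euler operators. -/

namespace Pool.Agent.MP_86c931_ag.H78

open Pool.Agent.MP_86c931_ag.H56 Submodule

section Eigen

variable {O : Type} [AddCommGroup O] [Module ℂ O]

theorem eig_inj (E : O →ₗ[ℂ] O) (T : Set O) (μ : ℂ) (hT : ∀ u ∈ T, ∃ l, l ≠ μ ∧ E u = l • u)
    {F : O} (hF : F ∈ span ℂ T) (h : E F = μ • F) : F = 0 := by
  have h1 := Module.End.eigenspaces_iSupIndep (R := ℂ) (M := O) E μ
  refine disjoint_def.mp h1 F (Module.End.mem_eigenspace_iff.mpr h) (span_le.mpr ?_ hF)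
  intro u hu
  obtain ⟨l, hl, hu⟩ := hT u hu
  exact mem_iSup_of_mem l (mem_iSup_of_mem hl (Module.End.mem_eigenspace_iff.mpr hu))

theorem eig_surj (E : O →ₗ[ℂ] O) (T : Set O) (μ : ℂ) (hT : ∀ u ∈ T, ∃ l, l ≠ μ ∧ E u = l • u)
    {F : O} (hF : F ∈ span ℂ T) : ∃ γ ∈ span ℂ T, E γ - μ • γ = F := by
  induction hF using span_induction with
  | mem u hu =>
    obtain ⟨l, hl, h⟩ := hT u hu
    refine ⟨(l - μ)⁻¹ • u, smul_mem _ _ (subset_span hu), ?_⟩
    rw [map_smul, h, smul_comm μ, ← smul_sub, ← sub_smul, smul_smul,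
      inv_mul_cancel₀ (sub_ne_zero.mpr hl), one_smul]
  | zero => exact ⟨0, zero_mem _, by simp⟩
  | add u v _ _ hu hv =>
    obtain ⟨a, ha, rfl⟩ := hu
    obtain ⟨b, hb, rfl⟩ := hv
    exact ⟨a + b, add_mem ha hb, by rw [map_add, smul_add]; abel⟩
  | smul c u _ hu =>
    obtain ⟨a, ha, rfl⟩ := hu
    exact ⟨c • a, smul_mem _ _ ha, by rw [map_smul, smul_sub, smul_comm μ]⟩

theorem eig_split (E : O →ₗ[ℂ] O) (T : Set O) (hT : ∀ u ∈ T, ∃ l : ℂ, E u = l • u)
    {F : O} (hF : F ∈ span ℂ T) : ∃ F0 ∈ span ℂ {u ∈ T | E u = 0},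
      ∃ F1 ∈ span ℂ {u ∈ T | ∃ l : ℂ, l ≠ 0 ∧ E u = l • u}, F0 + F1 = F := by
  refine mem_sup.mp (span_le.mpr ?_ hF)
  intro u hu
  obtain ⟨l, hl⟩ := hT u hu
  by_cases h : l = 0
  · exact mem_sup_left (subset_span ⟨hu, by rw [hl, h, zero_smul]⟩)
  · exact mem_sup_right (subset_span ⟨hu, l, h, hl⟩)

theorem ker_span (E : O →ₗ[ℂ] O) (T : Set O) {F : O} (hF : F ∈ span ℂ {u ∈ T | E u = 0}) :
    E F = 0 :=
  span_le (p := LinearMap.ker E).mpr (fun _ hu => hu.2) hF

theorem eig_ker (E : O →ₗ[ℂ] O) (T : Set O) (hT : ∀ u ∈ T, ∃ l : ℂ, E u = l • u)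
    {F : O} (hF : F ∈ span ℂ T) (h : E F = 0) : F ∈ span ℂ {u ∈ T | E u = 0} := by
  obtain ⟨F0, h0, F1, h1, rfl⟩ := eig_split E T hT hF
  rw [map_add, ker_span E T h0, zero_add] at h
  rw [eig_inj E _ 0 (fun u hu => hu.2) h1 (by rw [h, zero_smul]), add_zero]
  exact h0

theorem eig_sq (E : O →ₗ[ℂ] O) (T : Set O) (hT : ∀ u ∈ T, ∃ l : ℂ, E u = l • u)
    {F : O} (hF : F ∈ span ℂ T) (h : E (E F) = 0) : E F = 0 := by
  obtain ⟨F0, h0, F1, h1, rfl⟩ := eig_split E T hT hF
  rw [map_add, ker_span E T h0, zero_add] at h ⊢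
  refine eig_inj E {u ∈ T | ∃ l : ℂ, l ≠ 0 ∧ E u = l • u} 0 (fun u hu => hu.2) ?_
    (by rw [h, zero_smul])
  refine span_le (p := (span ℂ {u ∈ T | ∃ l : ℂ, l ≠ 0 ∧ E u = l • u}).comap E).mpr ?_ h1
  rintro u ⟨hu, l, hl, h2⟩
  change E u ∈ span ℂ _
  rw [h2]
  exact smul_mem _ _ (subset_span ⟨hu, l, hl, h2⟩)

end Eigen

variable {O : Type} [CommRing O] [Algebra ℂ O]

theorem mem_adjoin_iff_span (G : Set O) (F : O) :
    F ∈ Algebra.adjoin ℂ G ↔ F ∈ span ℂ (Submonoid.closure G : Set O) := by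
  rw [← Algebra.adjoin_eq_span]
  rfl

theorem eig_mul (E : Derivation ℂ O O) {u v : O} {l m : ℂ} (hu : E u = l • u) (hv : E v = m • v) :
    E (u * v) = (l + m) • (u * v) := by
  rw [E.leibniz, hu, hv, add_smul, smul_eq_mul, smul_eq_mul, mul_smul_comm, mul_smul_comm,
    mul_comm v u, add_comm]

theorem nat_eig (E : Derivation ℂ O O) (G : Set O) (hG : ∀ g ∈ G, ∃ n : ℕ, E g = (n : ℂ) • g) :
    ∀ u ∈ Submonoid.closure G, ∃ n : ℕ, E u = (n : ℂ) • u := by
  intro u hu
  induction hu using Submonoid.closure_induction with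
  | mem g hg => exact hG g hg
  | one => exact ⟨0, by simp⟩
  | mul u v _ _ hu hv =>
    obtain ⟨a, ha⟩ := hu
    obtain ⟨b, hb⟩ := hv
    exact ⟨a + b, by rw [eig_mul E ha hb, Nat.cast_add]⟩

theorem nat_ne (n k : ℕ) : (n : ℂ) ≠ -((k + 1 : ℕ) : ℂ) := by
  intro h
  have h1 : ((n + (k + 1) : ℕ) : ℂ) = 0 := by rw [Nat.cast_add, h, neg_add_cancel]
  exact absurd (Nat.cast_eq_zero.mp h1) (by omega)

theorem shift_inj (E : Derivation ℂ O O) (G : Set O) (hG : ∀ g ∈ G, ∃ n : ℕ, E g = (n : ℂ) • g)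
    (k : ℕ) {F : O} (hF : F ∈ Algebra.adjoin ℂ G) (h : E F + (k + 1) • F = 0) : F = 0 := by
  refine eig_inj E.toLinearMap _ (-((k + 1 : ℕ) : ℂ)) (fun u hu => ?_)
    ((mem_adjoin_iff_span G F).mp hF) ?_
  · obtain ⟨n, hn⟩ := nat_eig E G hG u hu
    exact ⟨n, nat_ne n k, hn⟩
  · rw [neg_smul, Nat.cast_smul_eq_nsmul]
    exact eq_neg_of_add_eq_zero_left h

theorem shift_surj (E : Derivation ℂ O O) (G : Set O) (hG : ∀ g ∈ G, ∃ n : ℕ, E g = (n : ℂ) • g)
    (k : ℕ) {F : O} (hF : F ∈ Algebra.adjoin ℂ G) :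
    ∃ γ ∈ Algebra.adjoin ℂ G, E γ + (k + 1) • γ = F := by
  obtain ⟨γ, h1, h2⟩ := eig_surj E.toLinearMap _ (-((k + 1 : ℕ) : ℂ)) (fun u hu => by
    obtain ⟨n, hn⟩ := nat_eig E G hG u hu
    exact ⟨n, nat_ne n k, hn⟩) ((mem_adjoin_iff_span G F).mp hF)
  refine ⟨γ, (mem_adjoin_iff_span G γ).mpr h1, ?_⟩
  rw [neg_smul, Nat.cast_smul_eq_nsmul, sub_neg_eq_add] at h2
  exact h2

theorem der_mem (d : Derivation ℂ O O) (G : Set O) (hG : ∀ g ∈ G, d g ∈ Algebra.adjoin ℂ G)
    {F : O} (hF : F ∈ Algebra.adjoin ℂ G) : d F ∈ Algebra.adjoin ℂ G := by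
  induction hF using Algebra.adjoin_induction with
  | mem g hg => exact hG g hg
  | algebraMap r => rw [d.map_algebraMap]; exact zero_mem _
  | add u v _ _ hu hv => rw [map_add]; exact add_mem hu hv
  | mul u v h1 h2 hu hv =>
    rw [d.leibniz, smul_eq_mul, smul_eq_mul]
    exact add_mem (mul_mem h1 hv) (mul_mem h2 hu)

variable {σ : Type} [DecidableEq σ] (c : Coord O σ)

/-- Euler operator in the coordinates of `A` -/
noncomputable def eul (A : Finset σ) : Derivation ℂ O O := ∑ s ∈ A, c.z s • c.d s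

theorem eul_apply (A : Finset σ) (f : O) : eul c A f = ∑ s ∈ A, c.z s * c.d s f := by
  induction A using Finset.induction_on with
  | empty => simp [eul]
  | insert s A hs ih =>
    rw [Finset.sum_insert hs, ← ih, eul, Finset.sum_insert hs]
    rfl

theorem eul_z (A : Finset σ) (t : σ) : eul c A (c.z t) = if t ∈ A then c.z t else 0 := by
  rw [eul_apply]
  simp only [c.dz, mul_ite, mul_one, mul_zero, Finset.sum_ite_eq']

theorem d_sum (A : Finset σ) (u : σ) (γ : σ → O) : c.d u (∑ s ∈ A, c.z s * γ s) =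
    (if u ∈ A then γ u else 0) + ∑ s ∈ A, c.z s * c.d u (γ s) := by
  rw [map_sum]
  simp only [Derivation.leibniz, c.dz, smul_eq_mul, mul_ite, mul_one, mul_zero,
    Finset.sum_add_distrib, Finset.sum_ite_eq]
  rw [add_comm]

theorem d_eul (A : Finset σ) (u : σ) (f : O) (hu : u ∈ A) :
    c.d u (eul c A f) = c.d u f + eul c A (c.d u f) := by
  rw [eul_apply, d_sum, if_pos hu, eul_apply]
  simp only [c.comm u]

theorem dz_mem (G : Set O) (s t : σ) : c.d s (c.z t) ∈ Algebra.adjoin ℂ G := by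
  rw [c.dz]
  split_ifs
  exacts [one_mem _, zero_mem _]

theorem d_inv {s : σ} {w : O} (h : c.z s * w = 1) (t : σ) :
    c.d t w = if t = s then -(w * w) else 0 := by
  have h1 := (c.d t).leibniz (c.z s) w
  rw [h, Derivation.map_one_eq_zero, c.dz, smul_eq_mul, smul_eq_mul] at h1
  split_ifs at h1 ⊢
  · linear_combination -(c.d t w) * h - w * h1
  · linear_combination -(c.d t w) * h - w * h1

theorem rowP2 : RowP2 := by
  intro O _ _ σ _ _ c Z hZ g hg ha hc
  let E := eul c Finset.univ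
  have hG : ∀ x ∈ Set.range c.z ∪ Z, ∃ n : ℕ, E x = (n : ℂ) • x := by
    rintro x (⟨t, rfl⟩ | hx)
    · exact ⟨1, by simp [E, eul_z]⟩
    · exact ⟨0, by simp [E, eul_apply, hZ _ x hx]⟩
  have hd : ∀ s, ∀ f ∈ Algebra.adjoin ℂ (Set.range c.z ∪ Z),
      c.d s f ∈ Algebra.adjoin ℂ (Set.range c.z ∪ Z) := by
    intro s f hf
    refine der_mem _ _ ?_ hf
    rintro x (⟨t, rfl⟩ | hx)
    · exact dz_mem c _ _ _
    · rw [hZ s x hx]
      exact zero_mem _
  choose γ h1 h2 using fun s t => shift_surj E _ hG 1 (hg s t)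
  have h3 : ∀ s t, γ s t = -γ t s := by
    intro s t
    refine eq_neg_of_add_eq_zero_left (shift_inj E _ hG 1 (add_mem (h1 s t) (h1 t s)) ?_)
    rw [map_add]
    linear_combination h2 s t + h2 t s + ha s t
  have h4 : ∀ u s t, c.d u (g s t) = E (c.d u (γ s t)) + (2 + 1) • c.d u (γ s t) := by
    intro u s t
    rw [← h2 s t, map_add, map_nsmul, d_eul c _ u _ (Finset.mem_univ u)]
    ring
  have h5 : ∀ s t u, c.d s (γ t u) + c.d t (γ u s) + c.d u (γ s t) = 0 := by
    intro s t u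
    refine shift_inj E _ hG 2 (add_mem (add_mem (hd _ _ (h1 _ _)) (hd _ _ (h1 _ _)))
      (hd _ _ (h1 _ _))) ?_
    rw [map_add, map_add]
    linear_combination hc s t u - h4 s t u - h4 t u s - h4 u s t
  refine ⟨fun t => ∑ s, c.z s * γ s t, fun t => sum_mem fun s _ =>
    mul_mem (Algebra.subset_adjoin (Or.inl ⟨s, rfl⟩)) (h1 s t), fun s t => ?_⟩
  rw [d_sum, d_sum, if_pos (Finset.mem_univ _), if_pos (Finset.mem_univ _), ← h2 s t, eul_apply]
  have h6 : ∑ u, c.z u * c.d u (γ s t) =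
      ∑ u, c.z u * c.d s (γ u t) - ∑ u, c.z u * c.d t (γ u s) := by
    rw [← Finset.sum_sub_distrib]
    refine Finset.sum_congr rfl fun u _ => ?_
    have h7 := h5 s t u
    rw [h3 t u, map_neg] at h7
    linear_combination c.z u * h7
  rw [h6]
  linear_combination -h3 s t

theorem rowP1 : RowP1 := by
  intro O _ _ σ _ _ c s0 a ha α hα hc
  let A := Finset.univ.erase s0
  let E := eul c A
  have hA : ∀ t, t ∈ A ↔ t ≠ s0 := by simp [A]
  have hEa : E a = 0 := by
    rw [eul_apply]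
    refine Finset.sum_eq_zero fun s hs => ?_
    rw [d_inv c ha, if_neg ((hA s).mp hs), mul_zero]
  have hmon : ∀ u ∈ Submonoid.closure (Set.range c.z ∪ {a}), ∃ n : ℕ, E u = (n : ℂ) • u ∧
      (n = 0 → ∃ i j : ℕ, u = c.z s0 ^ i * a ^ j) := by
    intro u hu
    induction hu using Submonoid.closure_induction with
    | mem g hg =>
      rcases hg with ⟨t, rfl⟩ | rfl
      · by_cases ht : t = s0
        · exact ⟨0, by simp [E, eul_z, hA, ht], fun _ => ⟨1, 0, by simp [ht]⟩⟩
        · exact ⟨1, by simp [E, eul_z, hA, ht], fun h => absurd h one_ne_zero⟩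
      · exact ⟨0, by simp [hEa], fun _ => ⟨0, 1, by simp⟩⟩
    | one => exact ⟨0, by simp, fun _ => ⟨0, 0, by simp⟩⟩
    | mul u v _ _ hu hv =>
      obtain ⟨m, hm, hm'⟩ := hu
      obtain ⟨n, hn, hn'⟩ := hv
      refine ⟨m + n, by rw [eig_mul E hm hn, Nat.cast_add], fun h => ?_⟩
      obtain ⟨i, j, rfl⟩ := hm' (by omega)
      obtain ⟨k, l, rfl⟩ := hn' (by omega)
      exact ⟨i + k, j + l, by ring⟩
  have hG : ∀ x ∈ Set.range c.z ∪ {a}, ∃ n : ℕ, E x = (n : ℂ) • x := fun x hx =>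
    (hmon x (Submonoid.subset_closure hx)).imp fun _ h => h.1
  have hz : ∀ s, c.z s ∈ Algebra.adjoin ℂ (Set.range c.z ∪ {a}) := fun s =>
    Algebra.subset_adjoin (Or.inl ⟨s, rfl⟩)
  have ha' : a ∈ Algebra.adjoin ℂ (Set.range c.z ∪ {a}) := Algebra.subset_adjoin (Or.inr rfl)
  have hd : ∀ s, ∀ f ∈ Algebra.adjoin ℂ (Set.range c.z ∪ {a}),
      c.d s f ∈ Algebra.adjoin ℂ (Set.range c.z ∪ {a}) := by
    intro s f hf
    refine der_mem _ _ ?_ hf
    rintro x (⟨t, rfl⟩ | rfl)
    · exact dz_mem c _ _ _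
    · rw [d_inv c ha]
      split_ifs
      exacts [neg_mem (mul_mem ha' ha'), zero_mem _]
  choose γ h1 h2 using fun s => shift_surj E _ hG 0 (hα s)
  have h4 : ∀ u s, u ≠ s0 → c.d u (α s) = E (c.d u (γ s)) + (1 + 1) • c.d u (γ s) := by
    intro u s hu
    rw [← h2 s, map_add, map_nsmul, d_eul c _ u _ ((hA u).mpr hu)]
    ring
  have h5 : ∀ s t, s ≠ s0 → t ≠ s0 → c.d s (γ t) = c.d t (γ s) := by
    intro s t hs ht
    refine sub_eq_zero.mp (shift_inj E _ hG 1 (sub_mem (hd _ _ (h1 _)) (hd _ _ (h1 _))) ?_)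
    rw [map_sub]
    linear_combination hc s t - h4 s t hs + h4 t s ht
  let f0 := ∑ s ∈ A, c.z s * γ s
  have hf0 : f0 ∈ Algebra.adjoin ℂ (Set.range c.z ∪ {a}) :=
    sum_mem fun s _ => mul_mem (hz s) (h1 s)
  have h6 : ∀ t, t ≠ s0 → c.d t f0 = α t := by
    intro t ht
    rw [d_sum, if_pos ((hA t).mpr ht), ← h2 t, eul_apply, zero_add, one_smul, add_comm]
    refine congrArg (· + γ t) (Finset.sum_congr rfl fun s hs => ?_)
    rw [h5 t s ht ((hA s).mp hs)]
  have h7 : E (α s0 - c.d s0 f0) = 0 := by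
    rw [eul_apply]
    refine Finset.sum_eq_zero fun s hs => ?_
    rw [map_sub, c.comm, h6 s ((hA s).mp hs), hc, sub_self, mul_zero]
  have h8 := eig_ker E.toLinearMap _ (fun u hu => (nat_eig E _ hG u hu).elim fun n hn => ⟨n, hn⟩)
    ((mem_adjoin_iff_span _ _).mp (sub_mem (hα s0) (hd s0 f0 hf0))) h7
  have hpow : ∀ i j : ℕ, ∃ f ∈ Algebra.adjoin ℂ (Set.range c.z ∪ {a}), ∃ r : ℂ,
      (∀ t, t ≠ s0 → c.d t f = 0) ∧ c.z s0 ^ i * a ^ j = c.d s0 f + r • a := by
    intro i j
    have hne : ∀ k : ℕ, ((k + 1 : ℕ) : ℂ) ≠ 0 := fun k => Nat.cast_ne_zero.mpr k.succ_ne_zero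
    have hcan : ∀ k : ℕ, c.z s0 ^ k * a ^ k = 1 := fun k => by rw [← mul_pow, ha, one_pow]
    rcases le_or_gt j i with h | h
    · obtain ⟨k, rfl⟩ := Nat.exists_eq_add_of_le h
      refine ⟨((k + 1 : ℕ) : ℂ)⁻¹ • c.z s0 ^ (k + 1), Subalgebra.smul_mem _ (pow_mem (hz _) _) _,
        0, fun t ht => ?_, ?_⟩
      · rw [Derivation.map_smul, Derivation.leibniz_pow, c.dz, if_neg ht]
        simp
      · rw [Derivation.map_smul, Derivation.leibniz_pow, c.dz, if_pos rfl,
          ← Nat.cast_smul_eq_nsmul ℂ, smul_smul, inv_mul_cancel₀ (hne k), one_smul, zero_smul,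
          add_zero, smul_eq_mul, mul_one, Nat.add_sub_cancel]
        linear_combination c.z s0 ^ k * hcan j
    · obtain ⟨k, rfl⟩ := Nat.exists_eq_add_of_lt h
      rcases k with _ | k
      · refine ⟨0, zero_mem _, 1, fun t _ => map_zero _, ?_⟩
        rw [map_zero, one_smul]
        linear_combination a * hcan i
      · refine ⟨-(((k + 1 : ℕ) : ℂ)⁻¹ • a ^ (k + 1)),
          neg_mem (Subalgebra.smul_mem _ (pow_mem ha' _) _), 0, fun t ht => ?_, ?_⟩
        · rw [map_neg, Derivation.map_smul, Derivation.leibniz_pow, d_inv c ha, if_neg ht]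
          simp
        · rw [map_neg, Derivation.map_smul, Derivation.leibniz_pow, d_inv c ha, if_pos rfl,
            ← Nat.cast_smul_eq_nsmul ℂ, smul_smul, inv_mul_cancel₀ (hne k), one_smul, zero_smul,
            add_zero, smul_eq_mul, Nat.add_sub_cancel]
          linear_combination a ^ (k + 2) * hcan i
  have h9 : ∀ β ∈ span ℂ {u ∈ (Submonoid.closure (Set.range c.z ∪ {a}) : Set O) |
      E.toLinearMap u = 0}, ∃ f ∈ Algebra.adjoin ℂ (Set.range c.z ∪ {a}), ∃ r : ℂ,
      (∀ t, t ≠ s0 → c.d t f = 0) ∧ β = c.d s0 f + r • a := by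
    intro β hβ
    induction hβ using span_induction with
    | mem u hu =>
      obtain ⟨n, hn, hn'⟩ := hmon u hu.1
      have hu2 : E u = 0 := hu.2
      rcases smul_eq_zero.mp (hn.symm.trans hu2) with h | h
      · obtain ⟨i, j, rfl⟩ := hn' (Nat.cast_eq_zero.mp h)
        exact hpow i j
      · exact ⟨0, zero_mem _, 0, fun t _ => map_zero _, by simp [h]⟩
    | zero => exact ⟨0, zero_mem _, 0, fun t _ => map_zero _, by simp⟩
    | add u v _ _ hu hv =>
      obtain ⟨f, hf, r, e1, rfl⟩ := hu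
      obtain ⟨f', hf', r', e2, rfl⟩ := hv
      refine ⟨f + f', add_mem hf hf', r + r', fun t ht => ?_, ?_⟩
      · rw [map_add, e1 t ht, e2 t ht, add_zero]
      · rw [map_add, add_smul]
        abel
    | smul k u _ hu =>
      obtain ⟨f, hf, r, e1, rfl⟩ := hu
      refine ⟨k • f, Subalgebra.smul_mem _ hf _, k * r, fun t ht => ?_, ?_⟩
      · rw [Derivation.map_smul, e1 t ht, smul_zero]
      · rw [Derivation.map_smul, smul_add, mul_smul]
  obtain ⟨f1, hf1, r, e1, e2⟩ := h9 _ h8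
  refine ⟨f0 + f1, add_mem hf0 hf1, r, fun s => ?_⟩
  rw [map_add]
  split_ifs with hs
  · rw [hs]
    linear_combination e2
  · rw [h6 s hs, e1 s hs, add_zero, add_zero]

theorem rowP0 : RowP0 := by
  intro O _ _ σ _ _ c I hI F hF
  let E : σ → Derivation ℂ O O := fun s => eul c {s}
  have hE : ∀ s f, E s f = c.z s * c.d s f := fun s f => by
    simp only [E, eul_apply, Finset.sum_singleton]
  have hmon : ∀ u ∈ Submonoid.closure (Set.range c.z ∪ I), ∃ p q : σ → ℕ,
      IsUnit (∏ s, c.z s ^ q s) ∧ u * ∏ s, c.z s ^ q s = ∏ s, c.z s ^ p s ∧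
      ∀ s, E s u = ((p s : ℂ) - q s) • u := by
    have hs : ∀ t, ∏ s, c.z s ^ (Pi.single t 1 : σ → ℕ) s = c.z t := by
      intro t
      rw [Finset.prod_eq_single t (fun s _ hs => by simp [hs]) (by simp)]
      simp
    intro u hu
    induction hu using Submonoid.closure_induction with
    | mem g hg =>
      rcases hg with ⟨t, rfl⟩ | hg
      · refine ⟨Pi.single t 1, 0, by simp, by simp [hs], fun s => ?_⟩
        rw [hE, c.dz]
        by_cases h : s = t <;> simp [h]
      · obtain ⟨t, ht⟩ := hI g hg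
        refine ⟨0, Pi.single t 1, ?_, ?_, fun s => ?_⟩
        · rw [hs]
          exact IsUnit.of_mul_eq_one _ ht
        · rw [hs, mul_comm, ht]
          simp
        · rw [hE, d_inv c ht]
          by_cases h : s = t
          · subst h
            simp only [if_true, Pi.zero_apply, Nat.cast_zero, Pi.single_eq_same, Nat.cast_one,
              zero_sub, neg_smul, one_smul]
            linear_combination -g * ht
          · simp [h]
    | one => exact ⟨0, 0, by simp, by simp, by simp⟩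
    | mul u v _ _ hu hv =>
      obtain ⟨p, q, a1, a2, a3⟩ := hu
      obtain ⟨p', q', b1, b2, b3⟩ := hv
      refine ⟨p + p', q + q', ?_, ?_, fun s => ?_⟩
      · simp only [Pi.add_apply, pow_add, Finset.prod_mul_distrib]
        exact a1.mul b1
      · simp only [Pi.add_apply, pow_add, Finset.prod_mul_distrib]
        rw [← a2, ← b2]
        ring
      · rw [eig_mul _ (a3 s) (b3 s)]
        simp only [Pi.add_apply, Nat.cast_add]
        rw [add_sub_add_comm]
  have heig : ∀ s, ∀ u ∈ (Submonoid.closure (Set.range c.z ∪ I) : Set O),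
      ∃ l : ℂ, (E s).toLinearMap u = l • u := by
    intro s u hu
    obtain ⟨p, q, -, -, h⟩ := hmon u hu
    exact ⟨_, h s⟩
  have hF' := (mem_adjoin_iff_span _ _).mp hF
  refine ⟨fun s r h => ?_, fun h => ?_⟩
  · rw [← hE] at h
    rw [← h]
    refine eig_sq (E s).toLinearMap _ (heig s) hF' ?_
    change E s (E s F) = 0
    rw [h, Derivation.map_algebraMap]
  · have key : ∀ A : Finset σ, F ∈ span ℂ
        {u ∈ (Submonoid.closure (Set.range c.z ∪ I) : Set O) | ∀ s ∈ A, E s u = 0} := by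
      intro A
      induction A using Finset.induction_on with
      | empty => simpa using hF'
      | insert t A _ ih =>
        refine span_mono ?_ (eig_ker (E t).toLinearMap _ (fun u hu => heig t u hu.1) ih
          (by change E t F = 0; rw [hE, h, mul_zero]))
        rintro u ⟨⟨h1, h2⟩, h3⟩
        refine ⟨h1, fun s hs => ?_⟩
        rcases Finset.mem_insert.mp hs with rfl | hs
        exacts [h3, h2 s hs]
    have h1 : F ∈ span ℂ {(1 : O)} := by
      refine span_le.mpr ?_ (key Finset.univ)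
      rintro u ⟨h1, h2⟩
      by_cases hu : u = 0
      · rw [hu]
        exact zero_mem _
      · obtain ⟨p, q, a1, a2, a3⟩ := hmon u h1
        have hpq : p = q := by
          funext s
          have h4 := (smul_eq_zero.mp ((a3 s).symm.trans (h2 s (Finset.mem_univ s)))).resolve_right
            hu
          exact_mod_cast sub_eq_zero.mp h4
        rw [hpq] at a2
        rw [a1.mul_right_cancel (a2.trans (one_mul _).symm)]
        exact subset_span rfl
    obtain ⟨r, hr⟩ := mem_span_singleton.mp h1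
    exact ⟨r, by rw [← hr, Algebra.algebraMap_eq_smul_one]⟩

theorem rowAlg : RowAlg := by
  intro O _ _ _ σ _ d z hd
  have hder : ∀ s (p : MvPolynomial σ ℂ), d s (MvPolynomial.aeval z p) =
      MvPolynomial.aeval z (MvPolynomial.pderiv s p) := by
    intro s p
    induction p using MvPolynomial.induction_on with
    | C a => simp
    | add p q hp hq => simp [hp, hq]
    | mul_X p t hp =>
      rw [map_mul, MvPolynomial.aeval_X, Derivation.leibniz, hp, hd, MvPolynomial.pderiv_mul,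
        MvPolynomial.pderiv_X, map_add, map_mul, map_mul, MvPolynomial.aeval_X]
      by_cases h : s = t
      · subst h
        simp [mul_comm, add_comm]
      · simp [h, mul_comm]
  have hC : ∀ p : MvPolynomial σ ℂ, p.totalDegree = 0 → MvPolynomial.aeval z p = 0 → p = 0 := by
    intro p h1 h2
    rw [MvPolynomial.totalDegree_eq_zero_iff_eq_C] at h1
    rw [h1, MvPolynomial.aeval_C, map_eq_zero] at h2
    rw [h1, h2, map_zero]
  have key : ∀ n, ∀ p : MvPolynomial σ ℂ, p.totalDegree ≤ n → MvPolynomial.aeval z p = 0 →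
      p = 0 := by
    intro n
    induction n with
    | zero => exact fun p h => hC p (Nat.le_zero.mp h)
    | succ n ih =>
      intro p h1 h2
      have h3 : ∀ s, MvPolynomial.pderiv s p = 0 := by
        intro s
        refine ih _ (Finset.sup_le fun m hm => ?_) (by rw [← hder, h2, map_zero])
        rw [MvPolynomial.mem_support_iff, MvPolynomial.coeff_pderiv] at hm
        have h4 := (MvPolynomial.le_totalDegree
          (MvPolynomial.mem_support_iff.mpr (left_ne_zero_of_mul hm))).trans h1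
        rw [Finsupp.sum_add_index' (fun _ => rfl) (fun _ _ _ => rfl),
          Finsupp.sum_single_index rfl] at h4
        omega
      refine hC p (Nat.le_zero.mp (Finset.sup_le fun m hm => ?_)) h2
      by_cases hm0 : m = 0
      · simp [hm0]
      · obtain ⟨s, hs⟩ := Finsupp.ne_iff.mp hm0
        have h5 : m - Finsupp.single s 1 + Finsupp.single s 1 = m :=
          Finsupp.sub_add_single_one_cancel hs
        have h6 := MvPolynomial.coeff_pderiv (i := s) p (m - Finsupp.single s 1)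
        rw [h3, h5, MvPolynomial.coeff_zero] at h6
        rcases mul_eq_zero.mp h6.symm with h7 | h7
        · exact absurd h7 (MvPolynomial.mem_support_iff.mp hm)
        · exact absurd h7 (Nat.cast_add_one_ne_zero _)
  exact algebraicIndependent_iff.mpr fun p => key _ p le_rfl

theorem rowPOIN : RowPOIN := ⟨rowP2, rowP1, rowP0, rowAlg⟩

end Pool.Agent.MP_86c931_ag.H78
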