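import Pool.Agent.MP_86c931_ag.H56.RowsA

/-! The trace identity, checked by normal ordering. -/

namespace Pool.Agent.MP_86c931_ag.H78

open Pool.Agent.MP_86c931_ag.H56
open scoped PowerSeries

/-- generators -/
abbrev Gn : Type := Fin 3 × K6

/-- coefficient, power of the parameter, word -/
abbrev Tm : Type := ℤ × ℕ × List Gn

/-- structure constants -/
def ctr (x y : Gn) : ℤ :=
  if y.1 = x.1.rev ∧ y.2 = x.2.dual then (if x.2.2 then 1 else -1) else 0

/-- position of a generator in the normal order -/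
def key (x : Gn) : ℕ := (if x.2.2 then 0 else 9) + 3 * x.2.1.val + x.1.val

/-- multiply a word on the left by a generator -/
def ins (x : Gn) : List Gn → List Tm
  | [] => [(1, 0, [x])]
  | y :: w => if key x ≤ key y then [(1, 0, x :: y :: w)] else
      (ctr x y, 1, w) :: (ins x w).map fun t => (t.1, t.2.1, y :: t.2.2)

/-- add a term, merging equal monomials -/
def addT (t : Tm) : List Tm → List Tm
  | [] => if t.1 = 0 then [] else [t]
  | s :: P => if s.2 = t.2 then (if s.1 + t.1 = 0 then P else (s.1 + t.1, s.2) :: P)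
      else s :: addT t P

/-- merge equal monomials -/
def collect (P : List Tm) : List Tm := P.foldr addT []

/-- multiply by an integer and a power of the parameter -/
def scale (c : ℤ) (k : ℕ) (P : List Tm) : List Tm := P.map fun s => (c * s.1, k + s.2.1, s.2.2)

/-- multiply on the left by a generator -/
def mulG (x : Gn) (P : List Tm) : List Tm :=
  collect (P.flatMap fun t => scale t.1 t.2.1 (ins x t.2.2))

/-- product -/
def pmul (P Q : List Tm) : List Tm :=
  collect (P.flatMap fun t => scale t.1 t.2.1 (t.2.2.foldr mulG Q))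

/-- difference -/
def psub (P Q : List Tm) : List Tm := P ++ scale (-1) 0 Q

/-- commutator -/
def pcomm (P Q : List Tm) : List Tm := psub (pmul P Q) (pmul Q P)

/-- invariant pairing -/
def pdot (v w : Fin 3 → List Tm) : List Tm :=
  pmul (v 0) (w 2) ++ (pmul (v 1) (w 1) ++ pmul (v 2) (w 0))

/-- vector product -/
def pcross (v w : Fin 3 → List Tm) : Fin 3 → List Tm :=
  ![psub (pmul (v 0) (w 1)) (pmul (v 1) (w 0)), psub (pmul (v 2) (w 0)) (pmul (v 0) (w 2)),
    psub (pmul (v 1) (w 2)) (pmul (v 2) (w 1))]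

/-- a vector of generators -/
def pv (i : Fin 3) (b : Bool) : Fin 3 → List Tm := fun a => [(1, 0, [(a, (i, b))])]

/-- angular momentum -/
def pL (i : Fin 3) : Fin 3 → List Tm := pcross (pv i true) (pv i false)

/-- quadratic invariants -/
def pI (i : Fin 3) (b : Bool) (j : Fin 3) (c : Bool) : List Tm := pdot (pv i b) (pv j c)

theorem check : collect (
    scale (-3) 0 (pcomm (pI 0 true 1 true) (pmul (pI 0 true 1 false) (pI 0 false 0 false))) ++
    (scale 10 0 (pcomm (pdot (pv 2 true) (pL 0)) (pdot (pv 2 false) (pL 1))) ++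
    (scale (-1) 1 (pcomm (pI 0 true 0 true) (pI 0 false 0 false)) ++
    (scale 1 0 (pcomm (pI 0 true 0 true) (pmul (pI 0 true 0 false) (pI 0 false 0 false))) ++
    (scale (-4) 0 (pcomm (pdot (pv 1 true) (pL 0)) (pdot (pv 1 false) (pL 0))) ++
    scale 3 0 (pcomm (pI 0 true 1 false) (pmul (pI 0 true 1 true) (pI 0 false 0 false)))))))) =
    [(6, 3, [])] := by
  decide +kernel

variable {C : Type} [Ring C] [Algebra ℂ⟦X⟧ C] (g : Gn → C)

/-- value of a term -/
noncomputable def evT (t : Tm) : C := ((t.1 : ℂ⟦X⟧) * hb ^ t.2.1) • (t.2.2.map g).prod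

/-- value of a list of terms -/
noncomputable def ev (P : List Tm) : C := (P.map (evT g)).sum

theorem ev_cons (t : Tm) (P : List Tm) : ev g (t :: P) = evT g t + ev g P := by simp [ev]

theorem ev_append (P Q : List Tm) : ev g (P ++ Q) = ev g P + ev g Q := by simp [ev]

theorem ev_addT (t : Tm) (P : List Tm) : ev g (addT t P) = evT g t + ev g P := by
  induction P with
  | nil =>
    unfold addT
    split_ifs with h
    · simp [ev, evT, h]
    · simp [ev]
  | cons s P ih =>
    have key : s.2 = t.2 → evT g (s.1 + t.1, s.2) = evT g t + evT g s := by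
      intro h
      simp only [evT, h, Int.cast_add, add_mul, add_smul]
      rw [add_comm]
    unfold addT
    split_ifs with h1 h2
    · rw [ev_cons, ← add_assoc, ← key h1, h2]
      simp [evT]
    · rw [ev_cons, ev_cons, key h1, add_assoc]
    · rw [ev_cons, ev_cons, ih, add_left_comm]

theorem ev_collect (P : List Tm) : ev g (collect P) = ev g P := by
  induction P with
  | nil => rfl
  | cons t P ih => rw [ev_cons, ← ih, ← ev_addT]; rfl

theorem ev_scale (c : ℤ) (k : ℕ) (P : List Tm) :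
    ev g (scale c k P) = ((c : ℂ⟦X⟧) * hb ^ k) • ev g P := by
  induction P with
  | nil => simp [scale, ev]
  | cons t P ih =>
    rw [ev_cons, smul_add, ← ih, evT, smul_smul]
    simp only [scale, List.map_cons, ev_cons, evT, Int.cast_mul, pow_add]
    rw [mul_mul_mul_comm]

theorem ev_flatMap (P : List Tm) (f : Tm → List Tm) :
    ev g (P.flatMap f) = (P.map fun t => ev g (f t)).sum := by
  induction P with
  | nil => rfl
  | cons t P ih => rw [List.flatMap_cons, ev_append, ih, List.map_cons, List.sum_cons]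

theorem ev_psub (P Q : List Tm) : ev g (psub P Q) = ev g P - ev g Q := by
  rw [psub, ev_append, ev_scale, sub_eq_add_neg]
  simp

theorem ev_pv (i : Fin 3) (b : Bool) (a : Fin 3) : ev g (pv i b a) = g (a, (i, b)) := by
  simp [ev, pv, evT]

variable {g} (hg : ∀ x y, g x * g y = g y * g x + ((ctr x y : ℂ⟦X⟧) * hb) • (1 : C))
include hg

theorem ev_ins (x : Gn) (w : List Gn) : ev g (ins x w) = g x * (w.map g).prod := by
  induction w with
  | nil => simp [ins, ev, evT]
  | cons y w ih =>
    have h1 : ∀ P : List Tm,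
        ev g (P.map fun t => (t.1, t.2.1, y :: t.2.2)) = g y * ev g P := by
      intro P
      induction P with
      | nil => simp [ev]
      | cons t P ih => rw [List.map_cons, ev_cons, ev_cons, ih, mul_add]; simp [evT]
    unfold ins
    split_ifs
    · simp [ev, evT]
    · rw [ev_cons, h1, ih, List.map_cons, List.prod_cons, ← mul_assoc, ← mul_assoc, hg x y,
        add_mul, add_comm]
      simp [evT]

theorem ev_mulG (x : Gn) (P : List Tm) : ev g (mulG x P) = g x * ev g P := by
  rw [mulG, ev_collect, ev_flatMap]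
  induction P with
  | nil => simp [ev]
  | cons t P ih =>
    rw [List.map_cons, List.sum_cons, ih, ev_cons, mul_add, ev_scale, ev_ins hg, evT,
      mul_smul_comm]

theorem ev_pmul (P Q : List Tm) : ev g (pmul P Q) = ev g P * ev g Q := by
  have h1 : ∀ w : List Gn, ev g (w.foldr mulG Q) = (w.map g).prod * ev g Q := by
    intro w
    induction w with
    | nil => simp
    | cons y w ih => rw [List.foldr_cons, ev_mulG hg, ih, List.map_cons, List.prod_cons, mul_assoc]
  rw [pmul, ev_collect, ev_flatMap]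
  induction P with
  | nil => simp [ev]
  | cons t P ih =>
    rw [List.map_cons, List.sum_cons, ih, ev_cons, add_mul, ev_scale, h1, evT, smul_mul_assoc]

omit hg [Algebra ℂ⟦X⟧ C] in
theorem ad_mul (e x y : C) : x * y * e - e * (x * y) =
    x * (y * e - e * y) + (x * e - e * x) * y := by
  noncomm_ring

/-- the commutation relations of a vector -/
def IsVec (e h : C) (v : Fin 3 → C) : Prop :=
  v 0 * e - e * v 0 = 0 ∧ v 1 * e - e * v 1 = hb • v 0 ∧ v 2 * e - e * v 2 = -(hb • v 1) ∧
    v 0 * h - h * v 0 = hb • v 0 ∧ v 1 * h - h * v 1 = 0 ∧ v 2 * h - h * v 2 = -(hb • v 2)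

theorem inv_dot {e h : C} {v w : Fin 3 → List Tm} (hv : IsVec e h fun a => ev g (v a))
    (hw : IsVec e h fun a => ev g (w a)) :
    ev g (pdot v w) ∈ {w : C | w * e = e * w ∧ w * h = h * w} := by
  obtain ⟨a1, a2, a3, a4, a5, a6⟩ := hv
  obtain ⟨b1, b2, b3, b4, b5, b6⟩ := hw
  have h1 : ∀ e x y z : C, (x + (y + z)) * e - e * (x + (y + z)) =
      (x * e - e * x) + (y * e - e * y) + (z * e - e * z) := by
    intros
    noncomm_ring
  rw [pdot, ev_append, ev_append, ev_pmul hg, ev_pmul hg, ev_pmul hg]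
  constructor <;> rw [← sub_eq_zero, h1, ad_mul, ad_mul, ad_mul]
  · rw [a1, a2, a3, b1, b2, b3]
    simp
  · rw [a4, a5, a6, b4, b5, b6]
    simp

theorem vec_cross {e h : C} {v w : Fin 3 → List Tm} (hv : IsVec e h fun a => ev g (v a))
    (hw : IsVec e h fun a => ev g (w a)) : IsVec e h fun a => ev g (pcross v w a) := by
  obtain ⟨a1, a2, a3, a4, a5, a6⟩ := hv
  obtain ⟨b1, b2, b3, b4, b5, b6⟩ := hw
  have h1 : ∀ e x y : C, (x - y) * e - e * (x - y) = (x * e - e * x) - (y * e - e * y) := by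
    intros
    noncomm_ring
  simp only at a1 a2 a3 a4 a5 a6 b1 b2 b3 b4 b5 b6
  simp only [IsVec, pcross, Matrix.cons_val_zero, Matrix.cons_val_one, Matrix.cons_val, ev_psub,
    ev_pmul hg, h1, ad_mul, a1, a2, a3, a4, a5, a6, b1, b2, b3, b4, b5, b6, mul_zero, zero_mul,
    mul_neg, neg_mul, mul_smul_comm, smul_mul_assoc, smul_sub]
  refine ⟨?_, ?_, ?_, ?_, ?_, ?_⟩ <;> abel

theorem inv_mul {e h : C} {P Q : List Tm} (hP : ev g P ∈ {w : C | w * e = e * w ∧ w * h = h * w})
    (hQ : ev g Q ∈ {w : C | w * e = e * w ∧ w * h = h * w}) :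
    ev g (pmul P Q) ∈ {w : C | w * e = e * w ∧ w * h = h * w} := by
  rw [ev_pmul hg]
  exact ⟨by rw [mul_assoc, hQ.1, ← mul_assoc, hP.1, mul_assoc],
    by rw [mul_assoc, hQ.2, ← mul_assoc, hP.2, mul_assoc]⟩

theorem comm_mem {S : Set C} {P Q : List Tm} (hP : ev g P ∈ S) (hQ : ev g Q ∈ S) (c : ℤ) (k : ℕ) :
    ev g (scale c k (pcomm P Q)) ∈ comms S := by
  rw [ev_scale, pcomm, ev_psub, ev_pmul hg, ev_pmul hg]
  exact Submodule.smul_mem _ _ (Submodule.subset_span ⟨_, hP, _, hQ, rfl⟩)

omit hg in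
theorem rowTR : RowTR := by
  intro C _ _ z e h hz a1 a2 a3 a4 a5 a6
  have hg : ∀ x y : Gn, z x.1 x.2 * z y.1 y.2 = z y.1 y.2 * z x.1 x.2 +
      ((ctr x y : ℂ⟦X⟧) * hb) • (1 : C) := by
    intro x y
    rw [← sub_eq_iff_eq_add', hz, ctr, K6.sgn, Algebra.algebraMap_eq_smul_one]
    split_ifs <;> simp
  have hv : ∀ i b, IsVec e h fun a => ev (fun x : Gn => z x.1 x.2) (pv i b a) := by
    intro i b
    simp only [IsVec, ev_pv]
    exact ⟨a1 _, a2 _, a3 _, a4 _, a5 _, a6 _⟩
  have hL : ∀ i, IsVec e h fun a => ev (fun x : Gn => z x.1 x.2) (pL i a) := fun i =>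
    vec_cross hg (hv i true) (hv i false)
  have hI : ∀ i b j c, ev (fun x : Gn => z x.1 x.2) (pI i b j c) ∈
      {w : C | w * e = e * w ∧ w * h = h * w} := fun i b j c => inv_dot hg (hv i b) (hv j c)
  have h1 := congrArg (ev fun x : Gn => z x.1 x.2) check
  rw [ev_collect, ev_append, ev_append, ev_append, ev_append, ev_append] at h1
  have h2 : ev (fun x : Gn => z x.1 x.2) [(6, 3, [])] ∈
      comms {w : C | w * e = e * w ∧ w * h = h * w} := by
    rw [← h1]
    refine add_mem ?_ (add_mem ?_ (add_mem ?_ (add_mem ?_ (add_mem ?_ ?_))))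
    · exact comm_mem hg (hI _ _ _ _) (inv_mul hg (hI _ _ _ _) (hI _ _ _ _)) _ _
    · exact comm_mem hg (inv_dot hg (hv _ _) (hL _)) (inv_dot hg (hv _ _) (hL _)) _ _
    · exact comm_mem hg (hI _ _ _ _) (hI _ _ _ _) _ _
    · exact comm_mem hg (hI _ _ _ _) (inv_mul hg (hI _ _ _ _) (hI _ _ _ _)) _ _
    · exact comm_mem hg (inv_dot hg (hv _ _) (hL _)) (inv_dot hg (hv _ _) (hL _)) _ _
    · exact comm_mem hg (hI _ _ _ _) (inv_mul hg (hI _ _ _ _) (hI _ _ _ _)) _ _
  have h3 := Submodule.smul_mem _ (PowerSeries.C (6⁻¹ : ℂ)) h2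
  have h4 : (PowerSeries.C (6⁻¹ : ℂ)) * (((6 : ℤ) : ℂ⟦X⟧) * hb ^ 3) = hb ^ 3 := by
    rw [← mul_assoc, ← map_intCast (PowerSeries.C (R := ℂ)), ← map_mul]
    norm_num
  simp only [ev, evT, List.map_cons, List.map_nil, List.sum_cons, List.sum_nil, List.prod_nil,
    add_zero, smul_smul, h4] at h3
  exact h3

end Pool.Agent.MP_86c931_ag.H78
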